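import Mathlib
import Pool.Agent.V11175.Sh11

/-!
# The reverse-and-duplicate identity for the monotone triangle polynomial

We prove `α(n + k; σ_{n,k,i}) = A_n`, where
`σ_{n,k,i} = (1, ..., i - 1, i + k - 1, i + k - 1, ..., i, i, i + k, ..., n)` and `A_n` is the number of monotone
triangles with bottom row `(1, ..., n)`.

The proof takes place in the shuffle algebra (with kernel `1 - x + x y`) generated by letters `t_a`, `a ∈ ℕ`:
a word `t_{k_1} ... t_{k_n}` is an alternating polynomial and `α(n; k_1, ..., k_n)` is the value at `(1, ..., 1)`
of its quotient by the Vandermonde product.  Words of length `2 k` in `k` consecutive letters span a space of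
dimension one; comparing the values at `0` and `∞` of two variables we get
`t_{i+k-1}² ... t_i² = (t_i ... t_{i+k-1})²`.  A similar argument gives
`t_{i-1} (t_i ... t_{i+k-1})² = (t_{i-1} ... t_{i+k-2})² t_{i+k-1}`, so that the word of `σ_{n,k,i}` is equal to
the word of `(1, ..., k, 1, ..., n)`.
-/

set_option autoImplicit false

namespace Pool.Agent.Results.MP_b8c61a_co.ReverseDuplicate

open Finset Pool.Agent.V11175.Sh Pool.Agent.V11175.Sh.A Pool.Agent.V11175.MT

/-- the sequence `(1, ..., i - 1, i + k - 1, i + k - 1, ..., i, i, i + k, i + k + 1, ...)`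
(index `j` starts at `0`) -/
def sseq (k i j : ℕ) : ℕ :=
  if j + 1 < i then j + 1 else if j + 1 < i + 2 * k then i + k - 1 - (j + 1 - i) / 2 else j + 1 - k

lemma list_s (n k i : ℕ) (hin : i + k ≤ n) :
    List.ofFn (fun j : Fin (n + k) => sseq k (i + 1) j) =
      List.range' 1 i ++ (dbl (1 + i) k ++ List.range' (1 + i + k) (n - i - k)) := by
  apply List.ext_getElem
  · simp only [List.length_ofFn, List.length_append, List.length_range', dbl_length]
    omega
  · intro j h1 h2
    have hlen : j < n + k := by simpa using h1
    rw [List.getElem_ofFn]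
    simp only [sseq]
    by_cases hj : j < i
    · rw [if_pos (by omega), List.getElem_append_left (by simpa using hj), List.getElem_range']
      omega
    · rw [if_neg (by omega), List.getElem_append_right (by simpa using hj)]
      by_cases hj2 : j < i + 2 * k
      · rw [if_pos (by omega), List.getElem_append_left (by simp only [List.length_range', dbl_length]; omega),
          dbl_getElem]
        simp only [List.length_range']
        omega
      · rw [if_neg (by omega), List.getElem_append_right (by simp only [List.length_range', dbl_length]; omega),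
          List.getElem_range']
        simp only [List.length_range', dbl_length]
        omega

/-- **The reverse-and-duplicate identity.**  First: the monotone triangle polynomials exist and are unique.
Second: for all `n`, `k` and all `1 ≤ i ≤ n - k + 1`,
`α(n + k; 1, ..., i - 1, i + k - 1, i + k - 1, ..., i, i, i + k, ..., n)` is the number of monotone triangles with
bottom row `(1, ..., n)`. -/
theorem result :
    (∀ n : ℕ, ∃! P : MvPolynomial (Fin n) ℚ, IsAlpha n P) ∧
    ∀ n k i : ℕ, 1 ≤ i → i + k ≤ n + 1 → ∀ P : MvPolynomial (Fin (n + k)) ℚ, IsAlpha (n + k) P →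
      MvPolynomial.eval (fun j : Fin (n + k) => (sseq k i j : ℚ)) P =
        numMT n (fun j : Fin n => ((j : ℕ) : ℤ) + 1) := by
  refine ⟨existsUnique, ?_⟩
  intro n k i hi hin P hP
  obtain ⟨i, rfl⟩ : ∃ i', i = i' + 1 := ⟨i - 1, by omega⟩
  have hw : wordL (List.range' 1 i ++ (dbl (1 + i) k ++ List.range' (1 + i + k) (n - i - k))) =
      run 1 k * run 1 n := by
    rw [wordL_append, wordL_append, wordL_range', wordL_range', wordL_dbl, ← run_sq, ← mul_assoc, run_mul_sq,
      mul_assoc, show 1 + i + k = 1 + k + i by ring, ← run_add, mul_assoc, ← run_add,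
      show k + (i + (n - i - k)) = n by omega]
  rw [eval_eq hP (fun j : Fin (n + k) => sseq k (i + 1) j), alpha_of_list _ _ (list_s n k i (by omega)), hw,
    al_congr (show n + k = k + n by ring), al_run_run 1 k n (by omega)]
  have h := alpha_eq_num (fun j : Fin n => (j : ℕ) + 1) (by
    intro a b hab
    rw [Fin.lt_def] at hab
    simp only
    omega)
  have hl : List.ofFn (fun j : Fin n => (j : ℕ) + 1) = List.range' 1 n := by
    apply List.ext_getElem
    · simp
    · intro j h1 h2
      rw [List.getElem_ofFn, List.getElem_range']
      simp; omega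
  rw [alpha_of_list _ _ hl, wordL_range'] at h
  rw [h]
  push_cast
  rfl

end Pool.Agent.Results.MP_b8c61a_co.ReverseDuplicate
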